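import Pool.Agent.Q61.MH.Def

/-!
# Project MH: statements of the jobs, with proofs (MP_499f6d_pr)

Part (a): the crossing points `ρ_k` of `g k` and `g (k+1)`; parts (b), (c): `s r` is the maximum of
`g k r` over `k`, attained exactly at the `k` given by the crossing points.
In the statements `S_xxx` are propositions; a job proves `S_xxx`, possibly from others.
Throughout `k : ℕ`, real powers are `Real.rpow`, `S k r = ∑_{i=1}^k i^r`.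
-/

set_option autoImplicit false

open Real Filter Topology

noncomputable section

namespace Pool.Agent.Q61.MH

/-! ## Part (a) -/

/-- **JOB CROSS** (0.7 h), `theorem cross : S_cross`.
Proof. With `T = (k+1)(2k-1)`, `k(2k+1) = T+1`, one has (reorder the sums)
`P k r = (k(2k+1))^r - T^r - ∑_{l=1}^{k-1} [((l+1)(2k-1))^r - (l(2k+1))^r] - (2k-1)^r`
(`Real.mul_rpow`; the negative terms are `(i(2k-1))^r`, `i = 1..k+1`, the positive ones `(i(2k+1))^r`,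
`i = 1..k`). Here `0 < l(2k+1) < (l+1)(2k-1) < T` for `1 ≤ l ≤ k-1`, `2k-1 < T`. Divide by `T^r`:
`P k r / T^r = (A^r - 1) - ∑ (a_l^r - b_l^r) - c^r` with `A > 1 > a_l > b_l > 0`, `0 < c < 1`.
Let `lam = r'/r > 1`. Then `A^{r'} - 1 ≥ lam (A^r - 1)` (Bernoulli, `one_add_mul_self_le_rpow_one_add`
for the real exponent `lam` with `1 + s = A^r`), `a^{r'} - b^{r'} ≤ lam (a^r - b^r)` (for
`0 ≤ β ≤ α ≤ 1`: `α^lam - β^lam ≤ lam (α-β)`, mean value), `c^{r'} ≤ c^r < lam c^r`. Hence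
`P k r' / T^{r'} > lam * (P k r / T^r) ≥ 0`. -/
def S_cross : Prop := ∀ k : ℕ, 1 ≤ k → ∀ r r' : ℝ, 0 < r → r < r' → 0 ≤ P k r → 0 < P k r'

/-- **JOB ROOT** (0.6 h), `theorem root (h : S_cross) : S_root`.
Proof. `P k 1 = -(k+1)(k-1)` (Gauss sum). For `r ≤ 0`: `(2k+1)^r ≤ (2k-1)^r`, `S k r < S (k+1) r`, so
`P k r < 0`. `P k` is continuous; for large `r` it is positive:
`P k r = ∑_{i=1}^k [(i(2k+1))^r - (i(2k-1))^r] - ((k+1)(2k-1))^r ≥ (k(2k+1))^r - 2 ((k+1)(2k-1))^r`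
and `k(2k+1) > (k+1)(2k-1) > 0`. Intermediate value theorem on `[1, R]` gives a zero `ρ ≥ 1`;
`h` gives `P k r > 0` for `r > ρ`, and `P k r < 0` for `0 < r < ρ` (otherwise `P k ρ > 0`); `ρ > 1` if
`k ≥ 2` since `P k 1 < 0`; for `k = 1`, `P 1 1 = 0` so `ρ = 1`. -/
def S_root : Prop := ∀ k : ℕ, 1 ≤ k → ∃ ρ : ℝ, 1 ≤ ρ ∧ P k ρ = 0 ∧ (∀ r < ρ, P k r < 0) ∧
  (∀ r, ρ < r → 0 < P k r) ∧ (2 ≤ k → 1 < ρ) ∧ (k = 1 → ρ = 1)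

/-- **JOB REC** (0.4 h), `theorem rec1 : S_rec`.
Proof. `S (k+2) r = S (k+1) r + (k+2)^r`, `S (k+1) r = S k r + (k+1)^r`. So
`P (k+1) r = Dd (k+1) r * S (k+1) r - (2k+1)^r (k+2)^r` and
`P k r = Dd k r * S (k+1) r - (2k+1)^r (k+1)^r` (note `2(k+1)-1 = 2k+1`). Eliminate `S (k+1) r`; the
remaining term is `(2k+1)^r [ (k+2)^r Dd k r - (k+1)^r Dd (k+1) r ] = (2k+1)^r Qk k r`, because
`(k+2)(2k+1) = nn k`, `(k+2)(2k-1) = mm k`, `(k+1)(2k+3) = nn k + 1`, `(k+1)(2k+1) = mm k + 3`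
(`Real.mul_rpow`). -/
def S_rec : Prop := ∀ k : ℕ, 1 ≤ k → ∀ r : ℝ,
  Dd k r * P (k + 1) r = Dd (k + 1) r * P k r - (2 * (k : ℝ) + 1) ^ r * Qk k r

/-- **JOB QMONO** (0.7 h), `theorem qmono : S_qmono`.
Proof. `mm (k+1) = mm k + (4k+5)`, `nn (k+1) = nn k + (4k+7)`, `mm k + 3 = (2k+1)(k+1)`,
`nn k = (2k+1)(k+2)`, `mm k ≥ 3`. Put `l1 = (4k+5)/(mm k + 3)`, `l2 = (4k+7)/(nn k)`; `l1 > l2` because
`(4k+5)(k+2) > (4k+7)(k+1)`. Claim 1: `(mm(k+1)+3)^r - mm(k+1)^r ≥ (1+l1)^{r-1} [(mm k+3)^r - mm k^r]`: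
the function `h(s) = (mm(k+1)+s)^r - (1+l1)^{r-1} (mm k + s)^r` is monotone on `[0,3]`, its derivative
is `r [(mm(k+1)+s)^{r-1} - ((1+l1)(mm k+s))^{r-1}] ≥ 0` since
`mm(k+1)+s = (mm k+s)(1 + (4k+5)/(mm k+s)) ≥ (mm k+s)(1+l1)`. Claim 2 (the same way):
`(nn(k+1)+1)^r - nn(k+1)^r ≤ (1+l2)^{r-1} [(nn k+1)^r - nn k^r]`. As
`(mm k+3)^r - mm k^r > (nn k+1)^r - nn k^r > 0` and `(1+l1)^{r-1} ≥ (1+l2)^{r-1} > 0`, `Qk (k+1) r > 0`. -/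
def S_qmono : Prop := ∀ k : ℕ, 1 ≤ k → ∀ r : ℝ, 1 < r → 0 < Qk k r → 0 < Qk (k + 1) r

/-- **JOB UNI** (0.4 h), `theorem uni (h1 : S_cross) (h2 : S_rec) (h3 : S_qmono) : S_uni`.
Proof. `P 1 1 = 0`, so `P 1 r > 0` for `r > 1` by `h1`. Let `P k r ≤ 0`. If `Qk k r ≤ 0` then by `h3`
`Qk j r ≤ 0` for all `1 ≤ j ≤ k`, and then by `h2` and induction (`Dd j r > 0` for `r > 0`)
`P j r > 0` for all `1 ≤ j ≤ k+1`, a contradiction. So `Qk k r > 0`, and `h2` gives `P (k+1) r < 0`. -/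
def S_uni : Prop := ∀ k : ℕ, 1 ≤ k → ∀ r : ℝ, 1 < r → P k r ≤ 0 → 0 < Qk k r ∧ P (k + 1) r < 0

/-- **JOB UPP** (0.5 h), `theorem upp (h : S_uni) : S_upp`.
Proof. By `h`, `Qk k r > 0`, i.e. `(mm k+3)^r - mm k^r > (nn k+1)^r - nn k^r`. Mean value theorem:
left `≤ 3 r (mm k+3)^{r-1}`, right `≥ r (nn k)^{r-1}`. So `(nn k/(mm k+3))^{r-1} < 3`, and
`nn k/(mm k+3) = (k+2)/(k+1)`, `log ((k+2)/(k+1)) ≥ 1/(k+2)` (`Real.one_sub_inv_le_log_of_pos`);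
hence `(r-1)/(k+2) < log 3`. -/
def S_upp : Prop := ∀ k : ℕ, 1 ≤ k → ∀ r : ℝ, 1 < r → P k r = 0 → r ≤ 1 + ((k : ℝ) + 2) * Real.log 3

/-- **JOB QLOW** (0.3 h), `theorem qlow : S_qlow`.
Proof. Mean value theorem (`mm k ≥ 3 > 0`, `nn k > 0`, `r ≥ 1`): `(mm k+3)^r - mm k^r ≥ 3 r (mm k)^{r-1}`
and `(nn k+1)^r - nn k^r ≤ r (nn k+1)^{r-1}`, `(nn k + 1)^{r-1} = (mm k)^{r-1} ((nn k+1)/mm k)^{r-1}`. -/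
def S_qlow : Prop := ∀ k : ℕ, 1 ≤ k → ∀ r : ℝ, 1 ≤ r →
  r * mm k ^ (r - 1) * (3 - ((nn k + 1) / mm k) ^ (r - 1)) ≤ Qk k r

/-- **JOB RLIM** (0.6 h), `theorem rlim : S_rlim`.
Proof. `(nn j+1)/mm j = 1 + (2j+5)/(2j²+3j-2) ≤ exp((2j+5)/(2j²+3j-2))`, and
`(2j+5)/(2j²+3j-2) ≤ (1/j)(1 + 5/j)` for `j ≥ 5`. Choose `δ = (1 - c/log 3)/2 ∈ (0,1/2)`; then
`c/(1-δ) < log 3`. For `(1-δ)k ≤ j ≤ k` the power is at most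
`exp(c k (1/j)(1+5/j)) ≤ exp( c/(1-δ) * (1 + 5/((1-δ)k)) )`, which for large `k` is
`≤ exp((c/(1-δ) + log 3)/2) =: 3 - η` (for `c k ≥ 1`). -/
def S_rlim : Prop := ∀ c : ℝ, 0 < c → c < Real.log 3 → ∃ δ η : ℝ, 0 < δ ∧ δ < 1 / 2 ∧ 0 < η ∧
  ∃ K0 : ℕ, ∀ k : ℕ, K0 ≤ k → ∀ j : ℕ, (1 - δ) * k ≤ j → j ≤ k → 1 ≤ c * k ∧ 3 ≤ j ∧
    ((nn j + 1) / mm j) ^ (c * k - 1) ≤ 3 - η

/-- **JOB LOW** (1 h), `theorem low (h1 : S_rec) (h2 : S_uni) (h3 : S_qlow) (h4 : S_rlim) : S_low`.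
Proof. Fix `c`, take `δ, η, K0` from `h4`, let `k` be large, `r = c k > 1`, and suppose `P k r ≥ 0`.
By `h2` `P j r > 0` for `1 ≤ j < k` (else `P k r < 0`). Put `d j = P j r / (Dd j r * (j+1)^r)`. Since
`P j r = Dd j r * S j r - (2j-1)^r (j+1)^r`, `d j ≤ S j r/(j+1)^r ≤ j`. By `h1`, for
`e j = (2j+1)^r Qk j r / (Dd j r * Dd (j+1) r * (j+2)^r)`:
`d (j+1) = ((j+1)/(j+2))^r d j - e j`. For `(1-δ)k ≤ j ≤ k` `e j ≥ 0` by `h3`, `h4`; hence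
`d j ≥ ((j+2)/(j+1))^r d (j+1)` there, and `d (k-1) ≥ e (k-1)` because `d k ≥ 0`. With
`j0 = ⌈(1-δ)k⌉`: `k ≥ d j0 ≥ (k/(j0+1))^r e (k-1)`. Here `k/(j0+1) ≥ 1 + δ/2` for large `k`, and with
`j = k-1`, `Dd j r ≤ (2j+1)^r`, `Dd (j+1) r ≤ (2j+3)^r`,
`e j ≥ Qk j r/((2j+3)(j+2))^r ≥ η r (mm j)^{r-1}/((2j+3)(j+2))^r = (η r/mm j) ((2j-1)/(2j+3))^r`
(`mm j = (2j-1)(j+2)`), and `((2j-1)/(2j+3))^{ck} ≥ exp(-8c)` (say) for large `k`, `mm j ≤ 4k²`. So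
`k ≥ (1+δ/2)^{ck} η c exp(-8c)/(4k)`: false for large `k`. -/
def S_low : Prop := ∀ c : ℝ, 0 < c → c < Real.log 3 → ∀ᶠ k : ℕ in atTop, P k (c * k) < 0

/-! ## The quantity `s r` -/

/-- **JOB JUMP** (0.7 h), `theorem jumpf : S_jump`.
Proof. For fixed `x` substitute `y = x + z` (`Equiv.addLeft`/`tsum` over the shift). Term `z ≠ 0`:
`q x * (φ z * min 1 (q(x+z)/q x)) * |z|^r = φ z |z|^r min (q x) (q (x+z))` (if `q x = 0` both sides are `0`,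
as `q (x+z) ≥ 0`). Term `z = 0`: `|0|^r = 0` (`r > 0`) and `φ 0 = 0`, so both sides are `0`. Then
`ENNReal.tsum_comm`, `ENNReal.tsum_mul_left`. -/
def S_jump : Prop := ∀ (q φ : ℤ → ℝ) (r : ℝ), IsTarget q → IsProposal φ → 0 < r →
  jump r q φ = ∑' z : ℤ, ENNReal.ofReal (φ z * |(z : ℝ)| ^ r) *
    ∑' x : ℤ, ENNReal.ofReal (min (q x) (q (x + z)))

/-- **JOB TAIL** (0.6 h), `theorem tail : S_tail`.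
Proof. Case `z = 2y+1`: if `x ≥ -y` then `|x+z| ≥ |x|`, so the minimum is `q (x+z)`, `x + z ≥ y+1`; if
`x ≤ -y-1` then `|x| ≥ |x+z|`, the minimum is `q x = q (-x)`, `-x ≥ y+1`. So the sum over `x` splits into
two copies of `T q y` (bijections of `{x ≥ -y}` and `{x ≤ -y-1}` with `ℕ`). The case `z = -(2y+1)`
follows by `x ↦ -x` and symmetry of `q`. -/
def S_tail : Prop := ∀ (q : ℤ → ℝ), IsTarget q → ∀ (y : ℕ) (z : ℤ),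
  (z = 2 * (y : ℤ) + 1 ∨ z = -(2 * (y : ℤ) + 1)) →
  (∑' x : ℤ, ENNReal.ofReal (min (q x) (q (x + z)))) = 2 * T q y

/-- **JOB MOM** (0.3 h), `theorem momf : S_mom`.
Proof. The term `x = 0` is `0` (`r > 0`), the terms `x` and `-x` are equal; split `ℤ` into `x ≥ 1`, `0`,
`x ≤ -1`. `Mo r q > 0`: `q 1 > 0`, since otherwise (unimodality) `q x = 0` for all `x ≠ 0` and then
`q 0 = 1`, i.e. `q` is the point mass at `0`. -/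
def S_mom : Prop := ∀ (q : ℤ → ℝ) (r : ℝ), IsTarget q → 0 < r → mom r q = 2 * Mo r q ∧ Mo r q ≠ 0

/-- **JOB ABEL** (0.8 h), `theorem abel : S_abel`.
Proof. `p w = q (w+1)`, `w : ℕ`, is nonnegative, antitone and summable; `Mo r q ≠ ⊤` says that
`p w (w+1)^r` is summable (as real numbers). Let `a w = M (w+1)^r - (if y ≤ w then (2y+1)^r else 0)`.
Partial sums `A k = ∑_{w<k} a w = M S k r - (2y+1)^r (k-y)⁺ ≥ 0` (for `k ≤ y` it is `M S k r ≥ 0`, for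
`k > y` it is `hM`: `(2y+1)^r (k-y)/S k r ≤ M`, `S k r > 0`). Abel summation:
`∑_{w<n} p w a w = ∑_{k<n-1} A (k+1) (p k - p (k+1)) + A n p (n-1) ≥ 0`. Let `n → ∞`:
`(2y+1)^r ∑_{w ≥ y} p w ≤ M ∑ p w (w+1)^r`; convert to `ENNReal`. -/
def S_abel : Prop := ∀ (q : ℤ → ℝ) (r M : ℝ), IsTarget q → 0 < r → 0 ≤ M →
  (∀ y k : ℕ, y < k → G y k r ≤ M) → Mo r q ≠ ⊤ → ∀ y : ℕ,
  ENNReal.ofReal ((2 * (y : ℝ) + 1) ^ r) * T q y ≤ ENNReal.ofReal M * Mo r q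

/-- **JOB SUPR** (0.5 h), `theorem supr (h1 : S_jump) (h2 : S_tail) (h3 : S_mom) (h4 : S_abel) : S_supr`.
Proof. For a target `q` with finite moment and a proposal `φ`: for `z` even `φ z = 0`; for `z` odd write
`|z| = 2y+1`; then `ofReal (φ z |z|^r) * (2 T q y) ≤ ofReal (φ z) * 2 * ofReal M * Mo r q`
`= ofReal (φ z) * (ofReal M * mom r q)`. Sum over `z`: `∑ ofReal (φ z) = 1`, so
`jump ≤ ofReal M * mom`, hence `jump / mom ≤ ofReal M` (`ENNReal.div_le_of_le_mul`). -/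
def S_supr : Prop := ∀ r M : ℝ, 0 < r → 0 ≤ M → (∀ y k : ℕ, y < k → G y k r ≤ M) →
  s r ≤ ENNReal.ofReal M

/-- **JOB UNIF** (0.9 h), `theorem unif (h1 : S_jump) (h2 : S_tail) (h3 : S_mom) : S_unif`.
Proof. Target `q x = 1/(2k+1)` for `|x| ≤ k`, else `0`; proposal `φ z = 1/2` for `z = ±(2k-1)`, else `0`.
Check the axioms (`k ≥ 1`; `HasSum` of finitely supported functions). With `y = k-1`: `T q y = 1/(2k+1)`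
(only `w = 0`), `Mo r q = S k r/(2k+1)`, so `jump = (2k-1)^r * 2/(2k+1)`, `mom = 2 S k r/(2k+1)`,
`jump/mom = g k r`. `le_iSup` five times. -/
def S_unif : Prop := ∀ (k : ℕ) (r : ℝ), 1 ≤ k → 0 < r → ENNReal.ofReal (g k r) ≤ s r

/-! ## Off-diagonal values: `G y k r ≤ g j r` for some `j`
Notation in the docstrings: `m = k - y`, `Y = 2y+1`, `N = k + 1/2`, so `Y = 2N - 2m`. -/

/-- **JOB CASEA** (0.8 h), `theorem casea : S_casea`.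
Proof. `G y k r = m Y^r / S k r`, `g 2 r = 3^r/(1+2^r)`, so the claim is
`m (Y/3)^r + m (2Y/3)^r ≤ S k r` for `Y ≤ 3m`. The function `t ↦ t^r` is convex and increasing on
`[0,∞)`. The top `m` numbers `k-m+1..k` have mean `μ1 = (Y+m)/2 ≥ 2Y/3` (as `Y ≤ 3m`), so their
power sum is `≥ m μ1^r` (Jensen). The remaining numbers are `1..y` (`y = (Y-1)/2`). If `y ≥ m` take the
next `m` of them, with mean `μ2 = (Y-m)/2 = Y - μ1 ≥ 0`; if `y < m` fill up with `m-y` zeros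
(`0^r = 0`): mean `μ2 = y(y+1)/(2m) = (Y²-1)/(8m) ≥ Y - μ1` because `(Y-2m)² ≥ 1`. In both cases
the rest of the sum is `≥ m μ2^r ≥ m (Y-μ1)₊^r`. Finally with `σ = Y/3`: `μ1 ≥ 2σ ≥ σ` and
`μ1 + (Y-μ1) = 3σ`, so `μ1^r + (Y-μ1)₊^r ≥ (2σ)^r + σ^r` (convexity: if `Y-μ1 ≥ 0` the pair
`(μ1, Y-μ1)` majorises `(2σ,σ)`; if `Y - μ1 < 0`, then `μ1 > Y = 3σ` and
`(3σ)^r ≥ (2σ)^r+σ^r`). -/
def S_casea : Prop := ∀ (r : ℝ) (y k : ℕ), 1 ≤ r → y < k → 2 * (y : ℝ) + 1 ≤ 3 * ((k : ℝ) - y) →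
  G y k r ≤ g 2 r

/-- **JOB LOC1** (0.8 h), `theorem loc1 : S_loc1`.
Proof. For `s ∈ [0,1/2]` let `A(s) = (x-s)^{r-2} + (x+s)^{r-2}` and
`E(s) = 2 s x^r + (s³/6) r(r-1) A(s) - ((x+s)^{r+1} - (x-s)^{r+1})/(r+1)`; the claim is `E(1/2) ≥ 0`.
`A'(s) = (r-2) [(x+s)^{r-3} - (x-s)^{r-3}] ≥ 0` (both cases `1 ≤ r ≤ 2` and `r ≥ 3`). `E(0) = 0` and
`E'(s) = 2x^r + (s²/2) r(r-1) A + (s³/6) r(r-1) A' - (x+s)^r - (x-s)^r ≥ H(s)`,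
`H(s) = 2x^r + (s²/2) r(r-1) A - (x+s)^r - (x-s)^r`, `H(0) = 0`,
`H'(s) = s r(r-1) A + (s²/2) r(r-1) A' - r[(x+s)^{r-1} - (x-s)^{r-1}] ≥ K(s)`,
`K(s) = s r(r-1) A - r[(x+s)^{r-1} - (x-s)^{r-1}]`, `K(0) = 0`, `K'(s) = s r(r-1) A' ≥ 0`.
So `K, H, E ≥ 0` on `[0,1/2]` (monotone from the sign of the derivative, three times). -/
def S_loc1 : Prop := ∀ r x : ℝ, ((1 ≤ r ∧ r ≤ 2) ∨ 3 ≤ r) → 1 ≤ x →
  ((x + 1 / 2) ^ (r + 1) - (x - 1 / 2) ^ (r + 1)) / (r + 1) -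
    r * (r - 1) / 48 * ((x - 1 / 2) ^ (r - 2) + (x + 1 / 2) ^ (r - 2)) ≤ x ^ r

/-- **JOB LOC2** (0.6 h), `theorem loc2 : S_loc2`.
Proof. `E(s) = 2 s x^r + (s³/3) r(r-1) x^{r-2} - ((x+s)^{r+1} - (x-s)^{r+1})/(r+1)`, `s ∈ [0,1/2]`:
`E(0) = E'(0) = E''(0) = 0` and `E'''(s) = r(r-1) [2x^{r-2} - (x+s)^{r-2} - (x-s)^{r-2}] ≥ 0` because
`t^{r-2}` is concave (`0 ≤ r-2 ≤ 1`). So `E(1/2) ≥ 0`. -/
def S_loc2 : Prop := ∀ r x : ℝ, 2 ≤ r → r ≤ 3 → 1 ≤ x →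
  ((x + 1 / 2) ^ (r + 1) - (x - 1 / 2) ^ (r + 1)) / (r + 1) - r * (r - 1) / 24 * x ^ (r - 2) ≤ x ^ r

/-- **JOB SUM12** (0.6 h), `theorem sum12 (h : S_loc1) : S_sum12`.
Proof. For `r = 1`: `S k 1 = k(k+1)/2 = N²/2 - 1/8`, true with equality. Let `1 < r ≤ 2`. Sum `h` over
`x = 1..k` (telescoping): `S k r ≥ (N^{r+1} - (1/2)^{r+1})/(r+1) - (r(r-1)/48) ∑_i [(i-1/2)^p + (i+1/2)^p]`,
`p = r-2 ∈ (-1,0]`. For `u = 1/(2i)`: `(1-u)^p + (1+u)^p ≤ 2/(1-u²)` (convex in `p`, so at most the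
maximum of its values `2/(1-u²)` at `p=-1` and `2` at `p=0`; or `(1±u)^p ≤ (1+p) - p/(1±u)` for
`-1 ≤ p ≤ 0`, weighted AM-GM), hence the sum is `≤ ∑ 2 i^p (1 + 1/(4i²-1)) ≤ 2 ∑ i^p + ∑ 2/(4i²-1) ≤ 2 ∑ i^p + 1`.
Also `i^p ≤ ∫_{i-1/2}^{i+1/2} t^p dt = ((i+1/2)^{p+1} - (i-1/2)^{p+1})/(p+1)` (convexity of `t^p`), so
`∑ i^p ≤ (N^{r-1} - (1/2)^{r-1})/(r-1)`. Together
`S k r ≥ N^{r+1}/(r+1) - r N^{r-1}/24 - B`, `B = (1/2)^{r-1} (1/(4(r+1)) - r/24) + r(r-1)/48`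
`≤ 1/(4(r+1)) - r/24 + r(r-1)/48 ≤ 1/12` on `[1,2]`. -/
def S_sum12 : Prop := ∀ (r : ℝ) (k : ℕ), 1 ≤ r → r ≤ 2 → 1 ≤ k →
  ((k : ℝ) + 1 / 2) ^ (r + 1) / (r + 1) - r * ((k : ℝ) + 1 / 2) ^ (r - 1) / 24 - 1 / 12 ≤ S k r

/-- **JOB SUM23** (0.4 h), `theorem sum23 (h : S_loc2) : S_sum23`.
Proof. Sum `h` over `x = 1..k` (telescoping) and use
`∑_{i≤k} i^{r-2} ≤ k ((k+1)/2)^{r-2} ≤ N^{r-1}/2^{r-2}`: the first is Jensen for the concave function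
`t^{r-2}` (`0 ≤ r-2 ≤ 1`), the second holds since `k (k+1)^{p} = (k(k+1))^p k^{1-p} ≤ N^{2p} N^{1-p}`,
`p = r-2`. -/
def S_sum23 : Prop := ∀ (r : ℝ) (k : ℕ), 2 ≤ r → r ≤ 3 → 1 ≤ k →
  (((k : ℝ) + 1 / 2) ^ (r + 1) - (1 / 2) ^ (r + 1)) / (r + 1) -
    r * (r - 1) / 24 * (((k : ℝ) + 1 / 2) ^ (r - 1) / 2 ^ (r - 2)) ≤ S k r

/-- **JOB SUM3** (0.6 h), `theorem sum3 (h : S_loc1) : S_sum3`.
Proof. Sum `h` over `x = 1..k`. With `p = r-2 ≥ 1`: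
`∑_i [(i-1/2)^p + (i+1/2)^p] = 2 ∑_i (i-1/2)^p + N^p - (1/2)^p ≤ 2 k^{p+1}/(p+1) + N^p` (midpoint rule for
the convex function `t^p`: `(i-1/2)^p ≤ (i^{p+1} - (i-1)^{p+1})/(p+1)`). By convexity
`N^{p+1} - k^{p+1} ≥ (p+1) k^p/2`, so this is `≤ 2N^{p+1}/(p+1) + (N^p - k^p)`, and
`N^p - k^p ≤ (p/2) N^{p-1}` (mean value, `p ≥ 1`). Multiply by `r(r-1)/48`. -/
def S_sum3 : Prop := ∀ (r : ℝ) (k : ℕ), 3 ≤ r → 1 ≤ k →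
  ((k : ℝ) + 1 / 2) ^ (r + 1) / (r + 1) - (1 / 2) ^ (r + 1) / (r + 1) -
    r * ((k : ℝ) + 1 / 2) ^ (r - 1) / 24 -
    r * (r - 1) * (r - 2) / 96 * ((k : ℝ) + 1 / 2) ^ (r - 3) ≤ S k r

/-- **JOB RED** (0.5 h), `theorem red : S_red`.
Proof. `τ = m(r+1)/N`, `N - m = y + 1/2 > 0`. `G y k r = m (2(N-m))^r / S k r ≤`
`m (r+1) (2(N-m))^r/(N^{r+1} D) = τ (2(N-m)/N)^r/D`, and `2(N-m)/N = (2r/(r+1)) (1 + (1-τ)/r)`,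
`0 < 1 + (1-τ)/r ≤ exp((1-τ)/r)`, so `(2(N-m)/N)^r ≤ base r * exp(1-τ)`. -/
def S_red : Prop := ∀ (r D : ℝ) (y k : ℕ), 1 ≤ r → y < k → 0 < D →
  ((k : ℝ) + 1 / 2) ^ (r + 1) / (r + 1) * D ≤ S k r →
  G y k r ≤ base r * ((((k : ℝ) - y) * (r + 1) / (k + 1 / 2)) *
    Real.exp (1 - ((k : ℝ) - y) * (r + 1) / (k + 1 / 2)) / D)

/-- **JOB VAR** (0.7 h), `theorem var : S_var`.
Proof. Four one-variable inequalities `τ e^{1-τ} ≤ C (1 - a τ² - b τ⁴ - c)`. With `δ = τ-1`: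
`e^{-δ} ≤ 1 - δ + δ²/2 - δ³/6 + δ⁴/24` (all real `δ`), so for `τ ∈ [0,2]` it is a polynomial
inequality (`nlinarith`/`polyrith` with the squares of `(τ - 1.015)`; all have slack at least `3·10⁻⁵`,
near `τ = 1.01..1.025`); for (4) and `τ ∈ [2,5]` cut into a few intervals and use that `τ e^{1-τ}` is
decreasing for `τ ≥ 1` and the right side is decreasing too. Maxima of the quotients:
(1) `1.010147 < 1.0102`; (2) `1.00894 < 1.009`; (3) `1.0041 < 1.0083`; (4) `1.011592 < 1.012`. -/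
def S_var : Prop :=
  (∀ t : ℝ, 0 ≤ t → t ≤ 6 / 5 → t * Real.exp (1 - t) ≤ 1.0102 * (1 - t ^ 2 / 144 - 0.003)) ∧
  (∀ t : ℝ, 0 ≤ t → t ≤ 8 / 5 →
    t * Real.exp (1 - t) ≤ 1.009 * (1 - 0.765 * t ^ 2 / 96 - 0.00076)) ∧
  (∀ t : ℝ, 0 ≤ t → t ≤ 8 / 5 →
    t * Real.exp (1 - t) ≤ 1.0083 * (1 - 0.7 * t ^ 2 / 216 - 0.00076)) ∧
  (∀ t : ℝ, 0 ≤ t → t ≤ 5 →
    t * Real.exp (1 - t) ≤ 1.012 * (1 - t ^ 2 / 96 - t ^ 4 / 1536 - 0.0001))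

/-- **JOB OFF1** (0.7 h), `theorem off1 (h : S_sum12) : S_off1`.
Proof. `m = k-y ≥ 2`, `Y = 2y+1 > 3m`, so `N = Y/2 + m > 5m/2` and `N ≥ 11/2` (`m = 2` gives `y ≥ 3`,
`k ≥ 5`). With `θ = m/N < 2/5`, `1/N ≤ θ/2 < 1/5`: by `h`
`S k r ≥ N^{r+1}/(r+1) * D`, `D = 1 - r(r+1)/(24N²) - (r+1)/(12 N^{r+1})`
`≥ 1 - r(r+1)(4/25)/96 - (r+1)/(12 (11/2)^{r+1}) ≥ 0.988` for `1 ≤ r ≤ 3/2` (`r(r+1) ≤ 15/4`,
`(r+1)/(11/2)^{r+1} ≤ 2/(11/2)²`). So `G = m (2N-2m)^r/S ≤ (r+1) θ (2-2θ)^r / 0.988`. The function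
`θ (1-θ)^r` is increasing on `[0, 1/(r+1)] ∋ 2/5`, so `G ≤ (r+1)(2/5)(6/5)^r/0.988`, and
`(r+1)(2/5)[(2/5)^r + (4/5)^r] ≤ 0.969 < 0.988` for `1 ≤ r ≤ 3/2`
(values `0.96, 0.9672, 0.9686` at `r = 1, 5/4, 3/2`; or with `t = r-1`, `(2/5)^r ≤ (2/5)(1 - 0.73 t)`,
`(4/5)^r ≤ (4/5)(1 - 0.21 t)` by convexity, it is `≤ 0.96+0.112t-0.184t² ≤ 0.978 < 0.988`), i.e. `(6/5)^r (r+1)(2/5) (1+2^r) ≤ 0.988 * 3^r`. -/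
def S_off1 : Prop := ∀ (r : ℝ) (y k : ℕ), 1 ≤ r → r ≤ 3 / 2 → y + 2 ≤ k →
  3 * ((k : ℝ) - y) < 2 * (y : ℝ) + 1 → G y k r ≤ g 2 r

/-- **JOB OFF2** (0.5 h), `theorem off2 (h1 : S_sum12) (h2 : S_red) (h3 : S_var) : S_off2`.
Proof. As in OFF1 `N > 5m/2`, `N ≥ 11/2`; `τ = m(r+1)/N < (2/5)·3 = 6/5`,
`1/N = τ/(m(r+1)) ≤ τ/(2(r+1))`. `D = 1 - r(r+1)/(24N²) - (r+1)/(12N^{r+1})`,
`r(r+1)/(24N²) ≤ (r/(r+1)) τ²/96 ≤ τ²/144` (`r ≤ 2`), `(r+1)/(12 N^{r+1}) ≤ (5/2)/(12 (11/2)^{5/2}) ≤ 0.003`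
(for `3/2 ≤ r ≤ 2` the maximum of `(r+1)/(11/2)^{r+1}` is at `r = 3/2`). So
`S k r ≥ N^{r+1}/(r+1) (1 - τ²/144 - 0.003)`; apply `h2` and `h3` (1). -/
def S_off2 : Prop := ∀ (r : ℝ) (y k : ℕ), 3 / 2 ≤ r → r ≤ 2 → y + 2 ≤ k →
  3 * ((k : ℝ) - y) < 2 * (y : ℝ) + 1 → G y k r ≤ 1.0102 * base r

/-- **JOB OFF3** (0.7 h), `theorem off3 (h1 : S_sum23) (h2 : S_red) (h3 : S_var) : S_off3`.
Proof. `N > 5m/2`, `N ≥ 11/2` as before, `τ = m(r+1)/N < (2/5)·4 = 8/5`. By `h1`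
`S k r ≥ N^{r+1}/(r+1) D`, `D = 1 - (1/(2N))^{r+1} - r(r-1)(r+1)/(24·2^{r-2} N²)`;
`(1/(2N))^{r+1} ≤ (1/11)³ ≤ 0.00076`; `1/N² = τ²/(m²(r+1)²)`, so the last term is
`(r(r-1)/((r+1) 2^{r-2})) τ²/(24 m²)`.
(ii) `r(r-1)/((r+1)2^{r-2}) ≤ 0.765` for `2 ≤ r ≤ 3` (maximum `0.76364` near `r = 2.7`; use
`2^{p} = e^{p log 2} ≥ 1 + u + u²/2 + u³/6`, `u = 0.6931 p`, `p = r-2`) and `m ≥ 2`: `h2`, `h3` (2).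
(i) For `2 ≤ r ≤ 21/10` the factor is `≤ 0.7`. `m ≥ 3`: `24m² ≥ 216`, `h3` (3). `m = 2`, `k = 5`:
`τ = 2(r+1)/5.5 ∈ [12/11, 62/55]`, `τe^{1-τ} ≤ (12/11) e^{-1/11} ≤ 0.9962`, `D ≥ 1 - 0.7·(62/55)²/96 - 0.00076`
`≥ 0.9899`, quotient `≤ 1.0064`. `m = 2`, `k ≥ 6`: `N ≥ 6.5`, `τ ≤ 6.2/6.5 < 0.954`,
`τe^{1-τ} ≤ 0.954 e^{0.046} ≤ 0.9990`, `D ≥ 1 - 0.7·0.954²/96 - 0.00076 ≥ 0.9925`, quotient `≤ 1.0066`. -/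
def S_off3 : Prop := ∀ (r : ℝ) (y k : ℕ), 2 ≤ r → r ≤ 3 → y + 2 ≤ k →
  3 * ((k : ℝ) - y) < 2 * (y : ℝ) + 1 →
  (r ≤ 21 / 10 → G y k r ≤ 1.0083 * base r) ∧ G y k r ≤ 1.009 * base r

/-- **JOB OFF4** (0.8 h), `theorem off4 (h1 : S_sum3) (h2 : S_red) (h3 : S_var) : S_off4`.
Proof. `N > 5m/2`, `N ≥ 11/2`, `τ = m(r+1)/N`, `1/N ≤ τ/(2(r+1))`.
Case `τ ≤ 5`: by `h1` `S k r ≥ N^{r+1}/(r+1) D`,
`D = 1 - (1/(2N))^{r+1} - r(r+1)/(24N²) - (r+1)r(r-1)(r-2)/(96N⁴)`, where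
`(1/(2N))^{r+1} ≤ (1/11)⁴ ≤ 0.0001`, `r(r+1)/(24N²) ≤ τ²/96`,
`(r+1)r(r-1)(r-2)/(96N⁴) ≤ (r+1)⁴/(96 N⁴) ≤ τ⁴/1536`; `h2`, `h3` (4) (the bracket is positive).
Case `τ > 5`: `S k r ≥ k^{r+1}/(r+1)` (`i^r ≥ (i^{r+1}-(i-1)^{r+1})/(r+1)`), so
`G ≤ m (r+1) (2(N-m))^r/k^{r+1} = 2^r (m(r+1)/k) ((N-m)/k)^r`; `m(r+1)/k = τ N/k ≤ 1.1 τ` (`k ≥ 5`),
`(N-m)/k = 1 - (m-1/2)/k ≤ exp(-(m-1/2)/k)`, `(m-1/2)/k · r ≥ (3/4)(m/N) r = (3/4)(r/(r+1)) τ ≥ (9/16) τ`.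
So `G ≤ 2^r · 1.1 τ exp(-9τ/16) ≤ 2^r · 5.5 exp(-45/16) ≤ 0.34 · 2^r` (decreasing for `τ ≥ 16/9`), and
`base r = 2^r (r/(r+1))^r ≥ 2^r e^{-1} ≥ 0.367 · 2^r`. -/
def S_off4 : Prop := ∀ (r : ℝ) (y k : ℕ), 3 ≤ r → y + 2 ≤ k →
  3 * ((k : ℝ) - y) < 2 * (y : ℝ) + 1 → G y k r ≤ 1.012 * base r

/-! ## Lower bounds for `max_j g j r` -/

/-- **JOB CONC** (0.7 h), `theorem conc : S_conc`.
Proof. Write `r = (1-t)a + tb`. Hölder: `S j r ≤ (S j a)^{1-t} (S j b)^t` (log-convexity of power sums,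
`Real.inner_le_Lp_mul_Lq` or weighted AM-GM). `x ↦ x log (2x/(x+1))` is convex on `(0,∞)` (second
derivative `1/(x (x+1)²) > 0`), so `base r ≤ (base a)^{1-t} (base b)^t`. And
`(2j-1)^r = ((2j-1)^a)^{1-t} ((2j-1)^b)^t`. So
`g j r ≥ (g j a)^{1-t} (g j b)^t ≥ C (base a)^{1-t} (base b)^t ≥ C base r`. -/
def S_conc : Prop := ∀ (j : ℕ) (C a b r : ℝ), 1 ≤ j → 0 < C → 0 < a → a ≤ r → r ≤ b →
  C * base a ≤ g j a → C * base b ≤ g j b → C * base r ≤ g j r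

/-- **JOB NUM1** (0.6 h), `theorem num1 : S_num1`.
Proof. (1) `g 2 2 = 9/5`, `base 2 = 16/9`. (2) `base (3/2) = (6/5)^{3/2}`,
`g 2 (3/2) = 3^{3/2}/(1+2^{3/2})`: `(5/2)^{3/2} ≥ 1.0125 (1 + 2^{3/2})` (square everything; `2^{3/2} ≤ 2.82843`,
`(5/2)^3 = 15.625 ≥ (3.8764)²`). (3) `r = 41/20`: `base r = (82/61)^r`; claim
`(183/82)^r ≥ 1.0084 (1 + 2^r)`, `2^r = 4·2^{1/20} ≤ 4·1.03527` (`1.03527^20 ≥ 2`); so it suffices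
`(183/82)^{41} ≥ (1.0084·5.14108)^{20}` (true with quotient `1.0009`; rational numbers). (4) the same for
`j = 3`: `(305/82)^r ≥ 1.0084 (1 + 2^r + 3^r)`, `3^r = 9·3^{1/20} ≤ 9·1.05647`. -/
def S_num1 : Prop := 1.0125 * base 2 ≤ g 2 2 ∧ 1.0125 * base (3 / 2) ≤ g 2 (3 / 2) ∧
  1.0084 * base (41 / 20) ≤ g 2 (41 / 20) ∧ 1.0084 * base (41 / 20) ≤ g 3 (41 / 20)

/-- **JOB NUM2** (0.5 h), `theorem num2 : S_num2`.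
Proof. `r = 21/10`: `base r = (42/31)^r`, claim `(155/42)^r ≥ 1.009 (1 + 2^r + 3^r)`; `2^{1/10} ≤ 1.07178`,
`3^{1/10} ≤ 1.11613`; tenth powers, rational numbers (true quotient `1.0122`). `r = 3`: `g 3 3 = 125/36`,
`base 3 = 27/8`. Then for `n = 3..29`: `g (n+1) n = (2n+1)^n/∑_{i≤n+1} i^n`, `base n = (2n/(n+1))^n` and
`g (n+1) (n+1)`, `base (n+1) = ((2n+2)/(n+2))^{n+1}`: integer arithmetic (`Real.rpow_natCast`,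
`norm_num`/`decide` case by case; smallest quotient `1.0162` at `n = 3`). -/
def S_num2 : Prop := 1.009 * base (21 / 10) ≤ g 3 (21 / 10) ∧ 1.009 * base 3 ≤ g 3 3 ∧
  ∀ n : ℕ, 3 ≤ n → n ≤ 29 → 1.012 * base n ≤ g (n + 1) n ∧
    1.012 * base ((n : ℝ) + 1) ≤ g (n + 1) ((n : ℝ) + 1)

/-- **JOB BIG** (0.8 h), `theorem big : S_big`.
Proof. `j = ⌊10r/11⌋ ≥ 27`, `ρ = r/j`, `1.1 ≤ ρ < 1.1 (1 + 1/j) ≤ 1.141`.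
`S j r = ∑_{i<j} (j-i)^r ≤ j^r ∑_i e^{-ρ i} ≤ j^r/(1-e^{-ρ})` (`1-x ≤ e^{-x}`), so
`g j r ≥ (2-1/j)^r (1-e^{-ρ}) = 2^r (1-1/(2j))^r (1-e^{-ρ})`; `log(1-u) ≥ -u - u²/(2(1-u))·`… use
`log(1-u) ≥ -u/(1-u)·`… precisely: `r log(1-1/(2j)) ≥ -r/(2j-1) = -(ρ/2)·(2j/(2j-1)) ≥ -ρ/2 - ρ/(2(2j-1))`
`≥ -ρ/2 - 0.0108` (`Real.one_sub_inv_le_log_of_pos`). With `z = e^{-ρ/2} ∈ [0.5652, 0.577]`:
`e^{-ρ/2}(1-e^{-ρ}) = z - z³ ≥ 0.3846` (increasing for `z ≤ 1/√3`). So `g j r ≥ 2^r·0.3846·e^{-0.0108} ≥ 0.3804·2^r`.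
And `base r = 2^r (r/(r+1))^r`, `r log(r/(r+1)) = -r log(1+1/r) ≤ -1 + 1/(2r) ≤ -1 + 1/60`
(`log(1+x) ≥ x - x²/2`), `1.012 e^{-1+1/60} ≤ 0.3786`. -/
def S_big : Prop := ∀ r : ℝ, 30 ≤ r → ∃ j : ℕ, 1 ≤ j ∧ 1.012 * base r ≤ g j r

end Pool.Agent.Q61.MH
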