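import Pool.Agent.Q61.MH.Fin
import Pool.Agent.Q121.MH_CROSS
import Pool.Agent.Q182.MH_ROOT
import Pool.Agent.Q259.MH_REC
import Pool.Agent.Q208.MH_QMONO
import Pool.Agent.Q40.MH_UNI
import Pool.Agent.Q154.MH.UPP
import Pool.Agent.Q90.MH_QLOW
import Pool.Agent.Q123.MH_RLIM
import Pool.Agent.Q278.MH_LOW
import Pool.Agent.Q178.MH_JUMP
import Pool.Agent.Q142.MH_TAIL
import Pool.Agent.Q186.MH_MOM
import Pool.Agent.Q187.MH_ABEL
import Pool.Agent.Q223.MH_SUPR
import Pool.Agent.Q76.MH_UNIF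
import Pool.Agent.Q217.MH_CASEA
import Pool.Agent.Q143.MH_LOC1
import Pool.Agent.Q79.MH_LOC2
import Pool.Agent.Q164.MH_SUM12
import Pool.Agent.Q65.MH_SUM23
import Pool.Agent.Q110.MH_SUM3
import Pool.Agent.Q110.MH_RED
import Pool.Agent.Q58.MH_VAR
import Pool.Agent.Q252.MH_OFF1
import Pool.Agent.Q160.MH_OFF2
import Pool.Agent.Q160.MH_OFF3
import Pool.Agent.Q77.MH_OFF4
import Pool.Agent.Q54.MH.CONC
import Pool.Agent.Q265.MH_NUM1
import Pool.Agent.Q135.MH_NUM2
import Pool.Agent.Q94.MH_BIG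

set_option autoImplicit false

namespace Pool.Agent.Q61.MH

theorem all_cross : S_cross := Pool.Agent.Q121.MH_CROSS.cross
theorem all_root : S_root := Q182.MH_ROOT.root all_cross
theorem all_rec : S_rec := Pool.Agent.Q61.MH.rec1
theorem all_qmono : S_qmono := Pool.Agent.Q208.MH.qmono
theorem all_uni : S_uni := Pool.Agent.Q40.MH.uni all_cross all_rec all_qmono
theorem all_upp : S_upp := Pool.Agent.Q154.MH.upp all_uni
theorem all_qlow : S_qlow := Pool.Agent.Q61.MH.qlow
theorem all_rlim : S_rlim := Q123.MH_RLIM.rlim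
theorem all_low : S_low := Q278.MH.low all_rec all_uni all_qlow all_rlim
theorem all_jump : S_jump := Pool.Agent.Q178.MHJ.jumpf
theorem all_tail : S_tail := Pool.Agent.Q142.MHT.tail
theorem all_mom : S_mom := Pool.Agent.Q186.MH.momf
theorem all_abel : S_abel := Pool.Agent.Q61.MH.abel
theorem all_supr : S_supr := Pool.Agent.Q223.MH_SUPR.supr all_jump all_tail all_mom all_abel
theorem all_unif : S_unif := Pool.Agent.Q76.MH_UNIF.unif all_jump all_tail all_mom
theorem all_casea : S_casea := Pool.Agent.Q217.MH_CASEA.casea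
theorem all_loc1 : S_loc1 := Pool.Agent.Q143.MH.loc1
theorem all_loc2 : S_loc2 := Pool.Agent.Q79.MH_LOC2.loc2
theorem all_sum12 : S_sum12 := Pool.Agent.Q164.MH.sum12 all_loc1
theorem all_sum23 : S_sum23 := Q65.MH.sum23 all_loc2
theorem all_sum3 : S_sum3 := Pool.Agent.Q61.MH.sum3 all_loc1
theorem all_red : S_red := Pool.Agent.Q61.MH.red
theorem all_var : S_var := Pool.Agent.Q58.MH.var
theorem all_off1 : S_off1 := Pool.Agent.Q252.MH.off1 all_sum12
theorem all_off2 : S_off2 := Pool.Agent.Q160.MH.off2 all_sum12 all_red all_var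
theorem all_off3 : S_off3 := Pool.Agent.Q160.MH.off3 all_sum23 all_red all_var
theorem all_off4 : S_off4 := Pool.Agent.Q77.MHOFF4.off4 all_sum3 all_red all_var
theorem all_conc : S_conc := Pool.Agent.Q54.MH.conc
theorem all_num1 : S_num1 := Pool.Agent.Q265.MH.num1
theorem all_num2 : S_num2 := Pool.Agent.Q135.MH.num2
theorem all_big : S_big := Pool.Agent.Q61.MH.big

theorem all_off : ∀ r : ℝ, 1 ≤ r → ∀ y k : ℕ, y < k → ∃ j : ℕ, 1 ≤ j ∧ G y k r ≤ g j r :=
  fun _ hr y k h => off all_casea all_off1 all_off2 all_off3 all_off4 all_conc all_num1 all_num2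
    all_big hr y k h

end Pool.Agent.Q61.MH
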