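import Pool.Agent.Q61.MH.Def

/-!
# Project MH, second part (MP_819a4a_pr): `s r = sup_k g k r = max_{k ≤ ⌈r⌉} g k r` for all `r > 0`
-/

set_option autoImplicit false

open Real Filter Topology

noncomputable section

namespace Pool.Agent.Q61.MH

/-- **JOB SMALL** (0.5 h), `theorem small : S_small`.
Proof. `G y k r = m Y^r / S k r` with `m = k-y ≥ 1`, `Y = 2y+1`: the claim is `m Y^r ≤ S (y+m) r`.
`F m = S (y+m) r - m Y^r` satisfies `F (m+1) - F m = (y+m+1)^r - Y^r`, which is `≤ 0` for `m ≤ y`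
and `≥ 0` for `m ≥ y`; so `F m ≥ F y` for all `m` (decreasing up to `m = y`, increasing after it).
`F y = S (2y) r - y Y^r = ∑_{i=1}^y (i^r + (Y-i)^r - Y^r) ≥ 0` by subadditivity
(`0 < r ≤ 1`, `Real.add_rpow_le_rpow_add`-type lemma: `(a+b)^r ≤ a^r + b^r`, `Real.rpow_add_le_add_rpow`). -/
def S_small : Prop := ∀ (r : ℝ) (y k : ℕ), 0 < r → r ≤ 1 → y < k → G y k r ≤ 1

/-- **JOB PKA** (0.4 h), `theorem pka : S_pka`.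
Proof. For `r = k` a natural number everything is an integer: the claim is
`(2k+1)^k ∑_{i≤k} i^k ≤ (2k-1)^k ∑_{i≤k+1} i^k`. Reduce to `ℕ` (`Real.rpow_natCast`, `push_cast`) and
check `1 ≤ k ≤ 59` by `decide` (`Nat` with big numbers, `by decide +kernel` on the `ℕ` statement
`∀ k < 60, 1 ≤ k → (2*k+1)^k * ∑ i ∈ Finset.range k, (i+1)^k ≤ (2*k-1)^k * ∑ i ∈ Finset.range (k+1), (i+1)^k`)
or `interval_cases`/`norm_num`. -/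
def S_pka : Prop := ∀ k : ℕ, 1 ≤ k → k ≤ 59 → P k (k : ℝ) ≤ 0

/-- **JOB PKB** (0.9 h), `theorem pkb : S_pkb`.
Proof. `P k r ≤ 0` iff `S k r/(k+1)^r ≤ 1/(((2k+1)/(2k-1))^r - 1)`. Let `r = k ≥ 60`, `n = k+1`.
Left side: `∑_{j=1}^{k} (1-j/n)^k`, and `log(1-x) ≤ -x - x²/2` gives
`(1-j/n)^k ≤ exp(-j + a_j)`, `a_j = (j - j²/2)/n + j²/(2n²) = (j/n)(1 - (1-1/n) j/2)`.
For `j ≥ 3` `a_j ≤ 0`; for `j ≤ 8` `|a_j| ≤ 1` and `exp a_j ≤ 1 + a_j + a_j²`. So the left side is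
`≤ ∑_{j≤8} e^{-j}(1+a_j+a_j²) + ∑_{j≥9} e^{-j} = 1/(e-1) + ∑_{j≤8} e^{-j}(a_j+a_j²)`.
Right side: `log((2k+1)/(2k-1)) = 2 artanh(1/(2k)) ≤ 1/k + 1/(11k³)`, so
`((2k+1)/(2k-1))^k ≤ e^{1+h}`, `h = 1/(11k²)`, and `1/(e^{1+h}-1) ≥ 1/(e-1) - h` (mean value:
`e^{1+h}/(e-1)² ≤ 1`). It remains: `∑_{j≤8} e^{-j}(a_j+a_j²) ≤ -h`. Multiply by `n²`:
`n ∑ e^{-j}(j-j²/2) + ∑ e^{-j} j²/2 + ∑ e^{-j} (j - j²/2 + j²/(2n))² ≤ -n²/(11k²)`; numerically the first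
sum is `≤ -0.068`, the second `≤ 0.99`, the third `≤ 2.0 + small` (`≤ 2.1` for `n ≥ 61`), the right side
`≥ -0.1`, and `0.068·61 = 4.15 > 0.99 + 2.1 + 0.1`. -/
def S_pkb : Prop := ∀ k : ℕ, 60 ≤ k → P k (k : ℝ) ≤ 0

end Pool.Agent.Q61.MH
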