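import Pool.Agent.Q61.MH.Fin
import Pool.Agent.Q61.MH.Stm2

/-! # Project MH: assembly of the second part (MP_819a4a_pr) -/

set_option autoImplicit false

open Real Filter Topology

noncomputable section

namespace Pool.Agent.Q61.MH

theorem g_eq_G {j : ℕ} (hj : 1 ≤ j) (r : ℝ) : g j r = G (j - 1) j r := by
  obtain ⟨y, rfl⟩ : ∃ y, j = y + 1 := ⟨j - 1, by omega⟩
  unfold G g
  have e0 : (y + 1 - 1 : ℕ) = y := by omega
  rw [e0]
  push_cast
  have e : (2 * ((y : ℝ) + 1) - 1) = 2 * (y : ℝ) + 1 := by ring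
  rw [e]
  ring

theorem g_one (r : ℝ) : g 1 r = 1 := by
  unfold g S
  simp
  norm_num

theorem final2 (hroot : S_root) (huni : S_uni) (hsup : S_supr) (hun : S_unif)
    (hoff : ∀ r : ℝ, 1 ≤ r → ∀ y k : ℕ, y < k → ∃ j : ℕ, 1 ≤ j ∧ G y k r ≤ g j r)
    (hsmall : S_small) (hpa : S_pka) (hpb : S_pkb) (r : ℝ) (hr : 0 < r) :
    s r = (⨆ (k : ℕ) (_ : 1 ≤ k), ENNReal.ofReal (g k r)) ∧
    ∃ k : ℕ, 1 ≤ k ∧ (k : ℤ) ≤ ⌈r⌉ ∧ (∀ j : ℕ, 1 ≤ j → g j r ≤ g k r) ∧
      s r = ENNReal.ofReal (g k r) := by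
  have key : ∃ k : ℕ, 1 ≤ k ∧ (k : ℤ) ≤ ⌈r⌉ ∧ (∀ j : ℕ, 1 ≤ j → g j r ≤ g k r) ∧
      s r = ENNReal.ofReal (g k r) := by
    rcases le_or_gt r 1 with h1 | h1
    · refine ⟨1, le_rfl, ?_, ?_, ?_⟩
      · have : (1 : ℤ) ≤ ⌈r⌉ := Int.one_le_ceil_iff.2 hr
        exact_mod_cast this
      · intro j hj
        rw [g_one, g_eq_G hj]
        exact hsmall r (j - 1) j hr h1 (by omega)
      · apply le_antisymm
        · apply hsup r _ hr (g_pos le_rfl r).le
          intro y k hyk
          rw [g_one]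
          exact hsmall r y k hr h1 hyk
        · exact hun 1 r le_rfl hr
    · obtain ⟨c, hc⟩ : ∃ c : ℕ, (c : ℤ) = ⌈r⌉ := ⟨⌈r⌉.toNat, Int.toNat_of_nonneg (Int.ceil_nonneg hr.le)⟩
      have hrc : r ≤ (c : ℝ) := by
        have := Int.le_ceil r
        rw [← hc] at this
        exact_mod_cast this
      have hc1 : 1 ≤ c := by
        have h2 : (1 : ℝ) < c := lt_of_lt_of_le h1 hrc
        have h3 : 1 < c := by exact_mod_cast h2
        omega
      have hPc : P c (c : ℝ) ≤ 0 := by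
        rcases Nat.lt_or_ge c 60 with h | h
        · exact hpa c hc1 (by omega)
        · exact hpb c h
      obtain ⟨ρ, _, hz, hneg, hpos, _, _⟩ := hroot c hc1
      have hcρ : (c : ℝ) ≤ ρ := by
        by_contra hcon
        exact absurd (hpos _ (not_le.1 hcon)) (not_lt.2 hPc)
      have hPr : P c r ≤ 0 := by
        rcases (hrc.trans hcρ).lt_or_eq with h | h
        · exact (hneg r h).le
        · rw [h, hz]
      have hPn : ∀ j, c < j → P j r < 0 := by
        intro j hj
        induction j, hj using Nat.le_induction with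
        | base => exact (huni c hc1 r h1 hPr).2
        | succ n hn ih => exact (huni n (by omega) r h1 ih.le).2
      have hafter : ∀ j, c ≤ j → g j r ≤ g c r := by
        intro j hj
        rcases Nat.lt_or_ge c j with h | h
        · have h2 : g (c + 1) r ≤ g c r := by
            by_contra hcon
            exact absurd ((g_lt_iff hc1 r).1 (not_le.1 hcon)) (not_lt.2 hPr)
          rcases Nat.lt_or_ge (c + 1) j with h3 | h3
          · exact (g_dec (by omega) j h3 (fun i hi _ => hPn i (by omega))).le.trans h2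
          · have : j = c + 1 := by omega
            rw [this]; exact h2
        · have : j = c := by omega
          rw [this]
      obtain ⟨K, hK, hKmax⟩ := Finset.exists_max_image (Finset.Icc 1 c) (fun k => g k r)
        ⟨c, Finset.mem_Icc.2 ⟨hc1, le_rfl⟩⟩
      rw [Finset.mem_Icc] at hK
      have hmax : ∀ j : ℕ, 1 ≤ j → g j r ≤ g K r := by
        intro j hj
        rcases Nat.lt_or_ge j c with h | h
        · exact hKmax j (Finset.mem_Icc.2 ⟨hj, h.le⟩)
        · exact (hafter j h).trans (hKmax c (Finset.mem_Icc.2 ⟨hc1, le_rfl⟩))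
      refine ⟨K, hK.1, ?_, hmax, s_eq hsup hun hoff h1.le hK.1 hmax⟩
      rw [← hc]
      exact_mod_cast hK.2
  obtain ⟨k, hk, hk2, hk3, hk4⟩ := key
  refine ⟨?_, k, hk, hk2, hk3, hk4⟩
  rw [hk4]
  apply le_antisymm
  · exact le_iSup₂_of_le k hk le_rfl
  · exact iSup₂_le fun j hj => ENNReal.ofReal_le_ofReal (hk3 j hj)

end Pool.Agent.Q61.MH
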