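import Pool.Agent.Q61.MH.All
import Pool.Agent.Q61.MH.Fin2
import Pool.Agent.Q220.MH_SMALL
import Pool.Agent.Q90.MH_PKA
import Pool.Agent.Q25.MH_PKB

set_option autoImplicit false

namespace Pool.Agent.Q61.MH

theorem all_small : S_small := Q220.MH_SMALL.small
theorem all_pka : S_pka := Pool.Agent.Q61.MH.pka
theorem all_pkb : S_pkb := Pool.Agent.Q25.MH_PKB.pkb

end Pool.Agent.Q61.MH
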