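import Mathlib

/-!
# Project MH (MP_499f6d_pr): definitions

Metropolis–Hastings chains on `ℤ` with odd symmetric proposals; `s r` is the supremum of
`E|X₁-X₀|^r / E|X₀|^r`; `g k r = (2k-1)^r / (1^r+…+k^r)`.
-/

set_option autoImplicit false

open Real

noncomputable section

namespace Pool.Agent.Q61.MH

/-- `S k r = 1^r + … + k^r`. -/
def S (k : ℕ) (r : ℝ) : ℝ := ∑ i ∈ Finset.range k, ((i : ℝ) + 1) ^ r

/-- `g k r = (2k-1)^r / S k r`. -/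
def g (k : ℕ) (r : ℝ) : ℝ := (2 * (k : ℝ) - 1) ^ r / S k r

/-- A target: a symmetric unimodal nondegenerate probability mass function on `ℤ`. -/
structure IsTarget (q : ℤ → ℝ) : Prop where
  nonneg : ∀ x, 0 ≤ q x
  hasSum : HasSum q 1
  symm : ∀ x, q (-x) = q x
  unimodal : ∀ x y : ℤ, |x| ≤ |y| → q y ≤ q x
  nondegenerate : q ≠ fun x => if x = 0 then 1 else 0

/-- A proposal step distribution: symmetric, zero at all even integers. -/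
structure IsProposal (φ : ℤ → ℝ) : Prop where
  nonneg : ∀ z, 0 ≤ φ z
  hasSum : HasSum φ 1
  symm : ∀ z, φ (-z) = φ z
  odd : ∀ z, Even z → φ z = 0

/-- The transition probabilities of the random-walk Metropolis–Hastings chain: from `x` propose
`x + Z`, accept with probability `min 1 (q (x+Z) / q x)`, otherwise stay at `x`. -/
def kernel (q φ : ℤ → ℝ) (x y : ℤ) : ℝ :=
  if y = x then
    φ 0 * min 1 (q x / q x) + ∑' z : ℤ, φ z * (1 - min 1 (q (x + z) / q x))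
  else φ (y - x) * min 1 (q y / q x)

/-- `E|X₀|^r`. -/
def mom (r : ℝ) (q : ℤ → ℝ) : ENNReal := ∑' x : ℤ, ENNReal.ofReal (q x * |(x : ℝ)| ^ r)

/-- `E|X₁-X₀|^r` for the stationary chain. -/
def jump (r : ℝ) (q φ : ℤ → ℝ) : ENNReal :=
  ∑' x : ℤ, ∑' y : ℤ, ENNReal.ofReal (q x * kernel q φ x y * |(y : ℝ) - x| ^ r)

/-- `s r`: the supremum of `E|X₁-X₀|^r / E|X₀|^r` over all targets with `E|X₀|^r < ∞` and all
proposal step distributions. -/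
def s (r : ℝ) : ENNReal :=
  ⨆ (q : ℤ → ℝ) (φ : ℤ → ℝ) (_ : IsTarget q) (_ : IsProposal φ) (_ : mom r q ≠ ⊤),
    jump r q φ / mom r q

/-! ## Auxiliary functions of the proof -/

/-- off-diagonal values: step `2y+1`, uniform target on `{-k,…,k}`. -/
def G (y k : ℕ) (r : ℝ) : ℝ := (2 * (y : ℝ) + 1) ^ r * ((k : ℝ) - y) / S k r

/-- `(2r/(r+1))^r`. -/
def base (r : ℝ) : ℝ := (2 * r / (r + 1)) ^ r

/-- `P k r > 0` iff `g (k+1) r > g k r`. -/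
def P (k : ℕ) (r : ℝ) : ℝ := (2 * (k : ℝ) + 1) ^ r * S k r - (2 * (k : ℝ) - 1) ^ r * S (k + 1) r

def Dd (k : ℕ) (r : ℝ) : ℝ := (2 * (k : ℝ) + 1) ^ r - (2 * (k : ℝ) - 1) ^ r

/-- `m_k = (2k-1)(k+2)`. -/
def mm (k : ℕ) : ℝ := 2 * (k : ℝ) ^ 2 + 3 * k - 2

/-- `n_k = (2k+1)(k+2)`. -/
def nn (k : ℕ) : ℝ := 2 * (k : ℝ) ^ 2 + 5 * k + 2

def Qk (k : ℕ) (r : ℝ) : ℝ := ((mm k + 3) ^ r - mm k ^ r) - ((nn k + 1) ^ r - nn k ^ r)

/-- `T q y = ∑_{w > y} q(w)`. -/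
def T (q : ℤ → ℝ) (y : ℕ) : ENNReal := ∑' w : ℕ, ENNReal.ofReal (q ((w : ℤ) + y + 1))

/-- `Mo r q = ∑_{w ≥ 1} q(w) w^r`. -/
def Mo (r : ℝ) (q : ℤ → ℝ) : ENNReal :=
  ∑' w : ℕ, ENNReal.ofReal (q ((w : ℤ) + 1) * ((w : ℝ) + 1) ^ r)

end Pool.Agent.Q61.MH
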