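import Pool.Agent.Q61.MH.Stm

/-! # Project MH: assembly -/

set_option autoImplicit false

open Real Filter Topology

noncomputable section

namespace Pool.Agent.Q61.MH

theorem S_pos {k : ℕ} (hk : 1 ≤ k) (r : ℝ) : 0 < S k r := by
  unfold S
  apply Finset.sum_pos
  · intro i _; positivity
  · exact ⟨0, Finset.mem_range.2 (by omega)⟩

theorem base_pos {r : ℝ} (hr : 0 < r) : 0 < base r := by
  unfold base; positivity

theorem g_pos {k : ℕ} (hk : 1 ≤ k) (r : ℝ) : 0 < g k r := by
  unfold g
  have h1 : (1 : ℝ) ≤ k := by exact_mod_cast hk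
  have := S_pos hk r
  have h2 : (0 : ℝ) < 2 * (k : ℝ) - 1 := by linarith
  positivity

theorem g_succ_sub {k : ℕ} (hk : 1 ≤ k) (r : ℝ) :
    g (k + 1) r - g k r = P k r / (S k r * S (k + 1) r) := by
  have h1 := S_pos hk r
  have h2 := S_pos (show 1 ≤ k + 1 by omega) r
  unfold g P
  have e : (2 * (((k + 1 : ℕ) : ℝ)) - 1) = 2 * (k : ℝ) + 1 := by push_cast; ring
  rw [e]
  field_simp

theorem g_lt_iff {k : ℕ} (hk : 1 ≤ k) (r : ℝ) : g k r < g (k + 1) r ↔ 0 < P k r := by
  have h1 := S_pos hk r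
  have h2 := S_pos (show 1 ≤ k + 1 by omega) r
  have h := g_succ_sub hk r
  constructor
  · intro hh
    by_contra hc
    have : P k r / (S k r * S (k + 1) r) ≤ 0 := div_nonpos_of_nonpos_of_nonneg (not_lt.1 hc) (by positivity)
    linarith
  · intro hh
    have : 0 < P k r / (S k r * S (k + 1) r) := by positivity
    linarith

theorem g_eq_iff {k : ℕ} (hk : 1 ≤ k) (r : ℝ) : g k r = g (k + 1) r ↔ P k r = 0 := by
  have h1 := S_pos hk r
  have h2 := S_pos (show 1 ≤ k + 1 by omega) r
  have h := g_succ_sub hk r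
  constructor
  · intro hh
    have h3 : P k r / (S k r * S (k + 1) r) = 0 := by linarith
    have h4 : S k r * S (k + 1) r ≠ 0 := by positivity
    exact (div_eq_zero_iff.1 h3).resolve_right h4
  · intro hh
    rw [hh, zero_div] at h
    linarith

theorem g_gt_iff {k : ℕ} (hk : 1 ≤ k) (r : ℝ) : g (k + 1) r < g k r ↔ P k r < 0 := by
  constructor
  · intro hh
    by_contra hc
    rcases (not_lt.1 hc).lt_or_eq with h | h
    · exact absurd ((g_lt_iff hk r).2 h) (by linarith)
    · exact absurd ((g_eq_iff hk r).2 h.symm) (by linarith)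
  · intro hh
    by_contra hc
    rcases (not_lt.1 hc).lt_or_eq with h | h
    · exact absurd ((g_lt_iff hk r).1 h) (by linarith)
    · exact absurd ((g_eq_iff hk r).1 h) (by linarith)

theorem g_inc {r : ℝ} {a : ℕ} (ha : 1 ≤ a) : ∀ b : ℕ, a < b → (∀ j, a ≤ j → j < b → 0 < P j r) →
    g a r < g b r := by
  intro b hab
  induction b, hab using Nat.le_induction with
  | base => intro h; exact (g_lt_iff ha r).2 (h a le_rfl (Nat.lt_succ_self a))
  | succ n hn ih =>
    intro h
    have h1 := ih (fun j hj hj' => h j hj (by omega))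
    have h2 := (g_lt_iff (show 1 ≤ n by omega) r).2 (h n (by omega) (by omega))
    linarith

theorem g_dec {r : ℝ} {a : ℕ} (ha : 1 ≤ a) : ∀ b : ℕ, a < b → (∀ j, a ≤ j → j < b → P j r < 0) →
    g b r < g a r := by
  intro b hab
  induction b, hab using Nat.le_induction with
  | base => intro h; exact (g_gt_iff ha r).2 (h a le_rfl (Nat.lt_succ_self a))
  | succ n hn ih =>
    intro h
    have h1 := ih (fun j hj hj' => h j hj (by omega))
    have h2 := (g_gt_iff (show 1 ≤ n by omega) r).2 (h n (by omega) (by omega))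
    linarith

/-- Off-diagonal values are dominated by some `g j r`. -/
theorem off (hA : S_casea) (h1 : S_off1) (h2 : S_off2) (h3 : S_off3) (h4 : S_off4) (hc : S_conc)
    (hn1 : S_num1) (hn2 : S_num2) (hb : S_big) {r : ℝ} (hr : 1 ≤ r) (y k : ℕ) (hyk : y < k) :
    ∃ j : ℕ, 1 ≤ j ∧ G y k r ≤ g j r := by
  have hr0 : 0 < r := by linarith
  have hbp := base_pos hr0
  rcases Nat.lt_or_ge (y + 1) k with hlt | hge
  · have hk2 : y + 2 ≤ k := hlt
    by_cases hca : 2 * (y : ℝ) + 1 ≤ 3 * ((k : ℝ) - y)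
    · exact ⟨2, by norm_num, hA r y k hr hyk hca⟩
    · have hca' : 3 * ((k : ℝ) - y) < 2 * (y : ℝ) + 1 := not_le.1 hca
      obtain ⟨n1, n2, n3, n4⟩ := hn1
      obtain ⟨m1, m2, m3⟩ := hn2
      rcases le_total r (3 / 2) with c1 | c1
      · exact ⟨2, by norm_num, h1 r y k hr c1 hk2 hca'⟩
      rcases le_total r 2 with c2 | c2
      · refine ⟨2, by norm_num, ?_⟩
        have e1 := h2 r y k c1 c2 hk2 hca'
        have e2 := hc 2 1.0125 (3 / 2) 2 r (by norm_num) (by norm_num) (by norm_num) c1 c2 n2 n1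
        nlinarith
      rcases le_total r 3 with c3 | c3
      · have e1 := h3 r y k c2 c3 hk2 hca'
        rcases le_total r (21 / 10) with c4 | c4
        · have e2 := e1.1 c4
          rcases le_total r (41 / 20) with c5 | c5
          · refine ⟨2, by norm_num, ?_⟩
            have hb2 := base_pos (show (0 : ℝ) < 2 by norm_num)
            have e3 := hc 2 1.0084 2 (41 / 20) r (by norm_num) (by norm_num) (by norm_num) c2 c5
              (by nlinarith) n3
            nlinarith
          · refine ⟨3, by norm_num, ?_⟩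
            have hb2 := base_pos (show (0 : ℝ) < 21 / 10 by norm_num)
            have e3 := hc 3 1.0084 (41 / 20) (21 / 10) r (by norm_num) (by norm_num) (by norm_num)
              c5 c4 n4 (by nlinarith)
            nlinarith
        · refine ⟨3, by norm_num, ?_⟩
          have e2 := e1.2
          have e3 := hc 3 1.009 (21 / 10) 3 r (by norm_num) (by norm_num) (by norm_num)
              c4 c3 m1 m2
          linarith
      · have e1 := h4 r y k c3 hk2 hca'
        rcases le_or_gt 30 r with c6 | c6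
        · obtain ⟨j, hj, hj2⟩ := hb r c6
          exact ⟨j, hj, by linarith⟩
        · have f1 : ((⌊r⌋₊ : ℕ) : ℝ) ≤ r := Nat.floor_le hr0.le
          have f2 : r < (⌊r⌋₊ : ℕ) + 1 := Nat.lt_floor_add_one r
          have f3 : 3 ≤ ⌊r⌋₊ := Nat.le_floor (by exact_mod_cast c3)
          have f4 : ⌊r⌋₊ ≤ 29 := by
            have : ((⌊r⌋₊ : ℕ) : ℝ) < 30 := lt_of_le_of_lt f1 c6
            have : ⌊r⌋₊ < 30 := by exact_mod_cast this
            omega
          obtain ⟨e2, e3⟩ := m3 ⌊r⌋₊ f3 f4
          have f5 : (0 : ℝ) < (⌊r⌋₊ : ℕ) := by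
            have : 0 < ⌊r⌋₊ := by omega
            exact_mod_cast this
          have e4 := hc (⌊r⌋₊ + 1) 1.012 (⌊r⌋₊ : ℕ) ((⌊r⌋₊ : ℕ) + 1) r (by omega) (by norm_num) f5
            f1 f2.le e2 e3
          exact ⟨⌊r⌋₊ + 1, by omega, by linarith⟩
  · have hk : k = y + 1 := by omega
    subst hk
    refine ⟨y + 1, by omega, le_of_eq ?_⟩
    unfold G g
    push_cast
    have e : (2 * ((y : ℝ) + 1) - 1) = 2 * (y : ℝ) + 1 := by ring
    rw [e]
    ring

/-- `s r` is the maximum of the `g j r`. -/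
theorem s_eq (hsup : S_supr) (hun : S_unif)
    (hoff : ∀ r : ℝ, 1 ≤ r → ∀ y k : ℕ, y < k → ∃ j : ℕ, 1 ≤ j ∧ G y k r ≤ g j r)
    {r : ℝ} (hr : 1 ≤ r) {K : ℕ} (hK : 1 ≤ K) (hmax : ∀ j, 1 ≤ j → g j r ≤ g K r) :
    s r = ENNReal.ofReal (g K r) := by
  have hr0 : 0 < r := by linarith
  apply le_antisymm
  · apply hsup r (g K r) hr0 (g_pos hK r).le
    intro y k hyk
    obtain ⟨j, hj, hj2⟩ := hoff r hr y k hyk
    exact hj2.trans (hmax j hj)
  · exact hun K r hK hr0

theorem final (hroot : S_root) (huni : S_uni) (hupp : S_upp) (hlow : S_low) (hsup : S_supr)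
    (hun : S_unif)
    (hoff : ∀ r : ℝ, 1 ≤ r → ∀ y k : ℕ, y < k → ∃ j : ℕ, 1 ≤ j ∧ G y k r ≤ g j r) :
    ∃ ρ : ℕ → ℝ,
      (∀ k, 1 ≤ k → ∀ r : ℝ, g k r = g (k + 1) r ↔ r = ρ k) ∧
      ρ 1 = 1 ∧ (∀ k, 1 ≤ k → 1 ≤ ρ k) ∧ (∀ k, 1 ≤ k → ρ k < ρ (k + 1)) ∧
      Tendsto ρ atTop atTop ∧
      Tendsto (fun k : ℕ => ρ k / (k * Real.log 3)) atTop (𝓝 1) ∧
      (∀ k, 2 ≤ k → ∀ r, ρ (k - 1) < r → r < ρ k →
        s r = ENNReal.ofReal (g k r) ∧ ∀ j, 1 ≤ j → j ≠ k → s r ≠ ENNReal.ofReal (g j r)) ∧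
      (∀ k, 1 ≤ k → ∀ j, 1 ≤ j →
        (s (ρ k) = ENNReal.ofReal (g j (ρ k)) ↔ j = k ∨ j = k + 1)) := by
  have hlog3 : 0 < Real.log 3 := Real.log_pos (by norm_num)
  choose! ρ hρ using hroot
  have hge : ∀ k, 1 ≤ k → 1 ≤ ρ k := fun k hk => (hρ k hk).1
  have hz : ∀ k, 1 ≤ k → P k (ρ k) = 0 := fun k hk => (hρ k hk).2.1
  have hneg : ∀ k, 1 ≤ k → ∀ r < ρ k, P k r < 0 := fun k hk => (hρ k hk).2.2.1
  have hpos : ∀ k, 1 ≤ k → ∀ r, ρ k < r → 0 < P k r := fun k hk => (hρ k hk).2.2.2.1
  have hgt1 : ∀ k, 2 ≤ k → 1 < ρ k := fun k hk => (hρ k (by omega)).2.2.2.2.1 hk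
  have hone : ρ 1 = 1 := (hρ 1 le_rfl).2.2.2.2.2 rfl
  have hmono : ∀ k, 1 ≤ k → ρ k < ρ (k + 1) := by
    intro k hk
    rcases Nat.lt_or_ge 1 k with h | h
    · have h1 := (huni k hk (ρ k) (hgt1 k h) (hz k hk).le).2
      by_contra hc
      rcases (not_lt.1 hc).lt_or_eq with h2 | h2
      · exact absurd (hpos (k + 1) (by omega) _ h2) (by linarith)
      · rw [← h2, hz (k + 1) (by omega)] at h1
        exact lt_irrefl _ h1
    · have : k = 1 := by omega
      subst this
      rw [hone]
      exact hgt1 2 le_rfl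
  have hmono' : ∀ a, 1 ≤ a → ∀ b, a < b → ρ a < ρ b := by
    intro a ha b hab
    induction b, hab using Nat.le_induction with
    | base => exact hmono a ha
    | succ n hn ih => exact ih.trans (hmono n (by omega))
  have hlowc : ∀ c, 0 < c → c < Real.log 3 → ∀ᶠ k : ℕ in atTop, c * k < ρ k := by
    intro c hc hc'
    filter_upwards [hlow c hc hc', eventually_ge_atTop 1] with k hk hk1
    by_contra hcon
    rcases (not_lt.1 hcon).lt_or_eq with h2 | h2
    · exact absurd (hpos k hk1 _ h2) (by linarith)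
    · rw [← h2, hz k hk1] at hk
      exact lt_irrefl _ hk
  have hupper : ∀ k, 2 ≤ k → ρ k ≤ 1 + ((k : ℝ) + 2) * Real.log 3 := fun k hk =>
    hupp k (by omega) (ρ k) (hgt1 k hk) (hz k (by omega))
  have htop : Tendsto ρ atTop atTop := by
    have h1 := hlowc (Real.log 3 / 2) (by positivity) (by linarith)
    have h2 : Tendsto (fun k : ℕ => Real.log 3 / 2 * (k : ℝ)) atTop atTop :=
      tendsto_natCast_atTop_atTop.const_mul_atTop (by positivity)
    exact tendsto_atTop_mono' _ (h1.mono fun k hk => hk.le) h2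
  have hratio : Tendsto (fun k : ℕ => ρ k / (k * Real.log 3)) atTop (𝓝 1) := by
    apply tendsto_order.2
    constructor
    · intro a ha
      have hc : 0 < max a (1 / 2) := lt_of_lt_of_le (by norm_num) (le_max_right _ _)
      have hc1 : max a (1 / 2) < 1 := max_lt ha (by norm_num)
      have h1 := hlowc (max a (1 / 2) * Real.log 3) (by positivity) (by nlinarith)
      filter_upwards [h1, eventually_ge_atTop 1] with k hk hk1
      have hk0 : (0 : ℝ) < k := by exact_mod_cast hk1
      have hd : 0 < (k : ℝ) * Real.log 3 := by positivity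
      rw [lt_div_iff₀ hd]
      calc a * ((k : ℝ) * Real.log 3) ≤ max a (1 / 2) * ((k : ℝ) * Real.log 3) :=
            mul_le_mul_of_nonneg_right (le_max_left _ _) hd.le
        _ = max a (1 / 2) * Real.log 3 * k := by ring
        _ < ρ k := hk
    · intro b hb
      have h2 : Tendsto (fun k : ℕ => (b - 1) * Real.log 3 * (k : ℝ)) atTop atTop :=
        tendsto_natCast_atTop_atTop.const_mul_atTop (mul_pos (by linarith) hlog3)
      filter_upwards [h2.eventually_gt_atTop (1 + 2 * Real.log 3), eventually_ge_atTop 2] with k hk hk1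
      have hk0 : (0 : ℝ) < k := by
        have : 0 < k := by omega
        exact_mod_cast this
      have hd : 0 < (k : ℝ) * Real.log 3 := by positivity
      rw [div_lt_iff₀ hd]
      have := hupper k hk1
      nlinarith
  refine ⟨ρ, ?_, hone, hge, hmono, htop, hratio, ?_, ?_⟩
  · intro k hk r
    rw [g_eq_iff hk r]
    constructor
    · intro h
      rcases lt_trichotomy r (ρ k) with h1 | h1 | h1
      · exact absurd (hneg k hk r h1) (by linarith)
      · exact h1
      · exact absurd (hpos k hk r h1) (by linarith)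
    · rintro rfl; exact hz k hk
  · intro k hk r hr1 hr2
    have hr : 1 ≤ r := ((hge (k - 1) (by omega)).trans_lt hr1).le
    have hp : ∀ j, 1 ≤ j → j < k → 0 < P j r := by
      intro j hj hjk
      apply hpos j hj
      rcases Nat.lt_or_ge j (k - 1) with h | h
      · exact (hmono' j hj (k - 1) h).trans hr1
      · have : j = k - 1 := by omega
        rw [this]; exact hr1
    have hn : ∀ j, k ≤ j → P j r < 0 := by
      intro j hj
      apply hneg j (by omega)
      rcases Nat.lt_or_ge k j with h | h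
      · exact hr2.trans (hmono' k (by omega) j h)
      · have : j = k := by omega
        rw [this]; exact hr2
    have hlt : ∀ j, 1 ≤ j → j ≠ k → g j r < g k r := by
      intro j hj hne
      rcases Nat.lt_or_ge j k with h | h
      · exact g_inc hj k h (fun i hi hi' => hp i (by omega) hi')
      · exact g_dec (by omega) j (by omega) (fun i hi _ => hn i hi)
    have hs := s_eq hsup hun hoff hr (show 1 ≤ k by omega) (fun j hj => by
      by_cases h : j = k
      · rw [h]
      · exact (hlt j hj h).le)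
    refine ⟨hs, ?_⟩
    intro j hj hne
    rw [hs]
    have := (ENNReal.ofReal_lt_ofReal_iff (g_pos (show 1 ≤ k by omega) r)).2 (hlt j hj hne)
    exact this.ne'
  · intro k hk j hj
    have hr : 1 ≤ ρ k := hge k hk
    have hp : ∀ j, 1 ≤ j → j < k → 0 < P j (ρ k) := fun j hj hjk => hpos j hj _ (hmono' j hj k hjk)
    have hn : ∀ j, k < j → P j (ρ k) < 0 := fun j hj => hneg j (by omega) _ (hmono' k hk j hj)
    have heq : g k (ρ k) = g (k + 1) (ρ k) := (g_eq_iff hk _).2 (hz k hk)
    have hlt : ∀ j, 1 ≤ j → j ≠ k → j ≠ k + 1 → g j (ρ k) < g k (ρ k) := by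
      intro j hj hne hne'
      rcases Nat.lt_or_ge j k with h | h
      · exact g_inc hj k h (fun i hi hi' => hp i (by omega) hi')
      · rw [heq]
        exact g_dec (by omega) j (by omega) (fun i hi _ => hn i (by omega))
    have hs := s_eq hsup hun hoff hr hk (fun j hj => by
      by_cases h : j = k
      · rw [h]
      · by_cases h' : j = k + 1
        · rw [h', heq]
        · exact (hlt j hj h h').le)
    constructor
    · intro h
      by_contra hc
      push Not at hc
      rw [hs] at h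
      have := (ENNReal.ofReal_lt_ofReal_iff (g_pos hk (ρ k))).2 (hlt j hj hc.1 hc.2)
      exact this.ne' h
    · rintro (h | h)
      · rw [h]; exact hs
      · rw [h, ← heq]; exact hs

end Pool.Agent.Q61.MH
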